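import Pool.Agent.Work.MP_1aba1b_co.Defs
import Pool.Agent.Work.MP_1aba1b_co.UpperFinal
import Pool.Agent.Work.MP_1aba1b_co.LowerFinal

/-!
# The exact value of `q(k)`: `q(k) = ⌊(k - 1) / 3⌋` for every `k ≥ 4`
-/

namespace Pool.Agent.Results.MP_1aba1b_co.QExact

open Pool.Agent.Work.MP_1aba1b_co

/-- For every `k ≥ 4`, the largest `q` in `{1, ..., k - 1}` such that position `q` is bounded is
`⌊(k - 1) / 3⌋` (equivalently `⌈k / 3⌉ - 1`). -/
theorem result (k : ℕ) (hk : 4 ≤ k) :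
    IsGreatest {q : ℕ | 1 ≤ q ∧ q ≤ k - 1 ∧ PositionBounded k q} ((k - 1) / 3) := by
  constructor
  · refine ⟨by omega, by omega, lower (by omega) (by omega)⟩
  · rintro q ⟨h1, h2, h3⟩
    have := upper hk h1 h2 h3
    omega

end Pool.Agent.Results.MP_1aba1b_co.QExact
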